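import Mathlib

set_option autoImplicit false

namespace Pool.Agent.Results.MP_a5fab4_co.SplitGraph

/-- `i(G)`: the smallest cardinality of a maximal independent set of `G`. -/
noncomputable def indepDom {n : ℕ} (G : SimpleGraph (Fin n)) : ℕ :=
  sInf {k : ℕ | ∃ S : Finset (Fin n),
    Maximal (fun T : Finset (Fin n) => G.IsIndepSet (T : Set (Fin n))) S ∧ S.card = k}

/-- `μ(G)`: the smallest cardinality of a maximal clique of `G`. -/
noncomputable def minMaxClique {n : ℕ} (G : SimpleGraph (Fin n)) : ℕ :=
  sInf {k : ℕ | ∃ S : Finset (Fin n),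
    Maximal (fun T : Finset (Fin n) => G.IsClique (T : Set (Fin n))) S ∧ S.card = k}

/-- `s` is the lower Ramsey number `s(l, m)`: the largest `n` such that every graph of
order `n` has `i(G) ≤ l` or `μ(G) ≤ m`. -/
def IsLowerRamsey (l m s : ℕ) : Prop :=
  IsGreatest {n : ℕ | ∀ G : SimpleGraph (Fin n), indepDom G ≤ l ∨ minMaxClique G ≤ m} s

/-- the pairs (clique vertex, independent vertex) which are not joined -/
def NA (q l a b : ℕ) : Prop := ∃ j, j < l ∧ (a * l + j) % q = b

/-- A split graph: the vertices below `p` form a clique, the others are independent. -/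
def gr (p q l : ℕ) : SimpleGraph (Fin (p + q)) where
  Adj u v := (u.val < p ∧ v.val < p ∧ u ≠ v) ∨
    (u.val < p ∧ p ≤ v.val ∧ ¬ NA q l u.val (v.val - p)) ∨
    (v.val < p ∧ p ≤ u.val ∧ ¬ NA q l v.val (u.val - p))
  symm := ⟨by
    rintro u v (⟨h1, h2, h3⟩ | h | h)
    · exact Or.inl ⟨h2, h1, h3.symm⟩
    · exact Or.inr (Or.inr h)
    · exact Or.inr (Or.inl h)⟩
  loopless := ⟨by
    rintro u (⟨h1, h2, h3⟩ | ⟨h1, h2, _⟩ | ⟨h1, h2, _⟩)
    · exact h3 rfl
    · omega
    · omega⟩

theorem adj_AA {p q l : ℕ} {u v : Fin (p + q)} (hu : u.val < p) (hv : v.val < p) (h : u ≠ v) :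
    (gr p q l).Adj u v := Or.inl ⟨hu, hv, h⟩

theorem not_adj_BB {p q l : ℕ} {u v : Fin (p + q)} (hu : p ≤ u.val) (hv : p ≤ v.val) :
    ¬ (gr p q l).Adj u v := by
  rintro (⟨h1, h2, h3⟩ | ⟨h1, h2, _⟩ | ⟨h1, h2, _⟩) <;> omega

theorem adj_AB {p q l : ℕ} {u v : Fin (p + q)} (hu : u.val < p) (hv : p ≤ v.val) :
    (gr p q l).Adj u v ↔ ¬ NA q l u.val (v.val - p) := by
  constructor
  · rintro (⟨h1, h2, h3⟩ | ⟨h1, h2, h3⟩ | ⟨h1, h2, _⟩)
    · omega
    · exact h3
    · omega
  · intro h
    exact Or.inr (Or.inl ⟨hu, hv, h⟩)

theorem indep_large (p q l : ℕ) (hq : l + 1 ≤ q) (S : Finset (Fin (p + q)))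
    (hS : Maximal (fun T : Finset (Fin (p + q)) =>
      (gr p q l).IsIndepSet (T : Set (Fin (p + q)))) S) : l + 1 ≤ S.card := by
  obtain ⟨hI, hmax⟩ := hS
  by_cases hA : ∃ a ∈ S, a.val < p
  · obtain ⟨a, haS, hap⟩ := hA
    -- all non-neighbours of `a` lie in `S`
    have hin : ∀ b : Fin (p + q), p ≤ b.val → NA q l a.val (b.val - p) → b ∈ S := by
      intro b hb hNA
      have hind : (gr p q l).IsIndepSet ((insert b S : Finset (Fin (p + q))) : Set _) := by
        have key : ∀ u ∈ S, ¬ (gr p q l).Adj b u := by
          intro u hu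
          rcases Nat.lt_or_ge u.val p with hup | hup
          · have hua : u = a := by
              by_contra hne
              exact hI (by exact_mod_cast hu) (by exact_mod_cast haS) hne (adj_AA hup hap hne)
            subst hua
            intro hadj
            exact (adj_AB hup hb).1 hadj.symm hNA
          · exact not_adj_BB hb hup
        intro x hx y hy hxy
        simp only [Finset.coe_insert, Set.mem_insert_iff, Finset.mem_coe] at hx hy
        rcases hx with rfl | hx
        · rcases hy with rfl | hy
          · exact absurd rfl hxy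
          · exact key y hy
        · rcases hy with rfl | hy
          · exact fun h => key x hx h.symm
          · exact hI (by exact_mod_cast hx) (by exact_mod_cast hy) hxy
      exact hmax hind (Finset.subset_insert b S) (Finset.mem_insert_self b S)
    have hqpos : 0 < q := by omega
    let f : ℕ → Fin (p + q) := fun j =>
      ⟨p + (a.val * l + j) % q, by have := Nat.mod_lt (a.val * l + j) hqpos; omega⟩
    have hfS : ∀ j ∈ Finset.range l, f j ∈ S := by
      intro j hj
      rw [Finset.mem_range] at hj
      apply hin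
      · simp [f]
      · refine ⟨j, hj, ?_⟩
        simp [f]
    have hinj : Set.InjOn f (Finset.range l : Set ℕ) := by
      intro j hj j' hj' h
      simp only [Finset.coe_range, Set.mem_Iio] at hj hj'
      have h1 : (a.val * l + j) % q = (a.val * l + j') % q := by
        have := congrArg Fin.val h
        simp only [f] at this
        omega
      have h2 : j % q = j' % q := Nat.ModEq.add_left_cancel' (a.val * l) h1
      rwa [Nat.mod_eq_of_lt (by omega), Nat.mod_eq_of_lt (by omega)] at h2
    have hsub : insert a ((Finset.range l).image f) ⊆ S := by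
      intro x hx
      rw [Finset.mem_insert, Finset.mem_image] at hx
      rcases hx with rfl | ⟨j, hj, rfl⟩
      · exact haS
      · exact hfS j hj
    have hnot : a ∉ (Finset.range l).image f := by
      intro h
      rw [Finset.mem_image] at h
      obtain ⟨j, _, hj⟩ := h
      have := congrArg Fin.val hj
      simp only [f] at this
      omega
    have hcard := Finset.card_le_card hsub
    rw [Finset.card_insert_of_notMem hnot, Finset.card_image_of_injOn hinj,
      Finset.card_range] at hcard
    exact hcard
  · push Not at hA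
    have hin : ∀ b : Fin (p + q), p ≤ b.val → b ∈ S := by
      intro b hb
      have hind : (gr p q l).IsIndepSet ((insert b S : Finset (Fin (p + q))) : Set _) := by
        intro x hx y hy hxy
        simp only [Finset.coe_insert, Set.mem_insert_iff, Finset.mem_coe] at hx hy
        apply not_adj_BB
        · rcases hx with rfl | hx
          · exact hb
          · exact hA x hx
        · rcases hy with rfl | hy
          · exact hb
          · exact hA y hy
      exact hmax hind (Finset.subset_insert b S) (Finset.mem_insert_self b S)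
    have hsub : (Finset.univ : Finset (Fin q)).image (Fin.natAdd p) ⊆ S := by
      intro x hx
      rw [Finset.mem_image] at hx
      obtain ⟨j, _, rfl⟩ := hx
      apply hin
      simp
    have hcard := Finset.card_le_card hsub
    rw [Finset.card_image_of_injective _ (Fin.natAdd_injective q p), Finset.card_univ,
      Fintype.card_fin] at hcard
    omega

theorem NA_count (p q l t b : ℕ) (hl : 0 < l) (h : p * l ≤ q * t) (F : Finset ℕ)
    (hF : ∀ a ∈ F, a < p ∧ NA q l a b) : F.card ≤ t := by
  classical
  have hj : ∀ a : ℕ, ∃ j, a ∈ F → (j < l ∧ (a * l + j) % q = b) := by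
    intro a
    by_cases ha : a ∈ F
    · obtain ⟨_, j, h1, h2⟩ := hF a ha
      exact ⟨j, fun _ => ⟨h1, h2⟩⟩
    · exact ⟨0, fun h => absurd h ha⟩
  choose j hj using hj
  have hmaps : Set.MapsTo (fun a => (a * l + j a) / q) (F : Set ℕ) (Finset.range t : Set ℕ) := by
    intro a ha
    have ha' : a ∈ F := by exact_mod_cast ha
    obtain ⟨h1, h2⟩ := hj a ha'
    have hap := (hF a ha').1
    simp only [Finset.coe_range, Set.mem_Iio]
    apply Nat.div_lt_of_lt_mul
    have : (a + 1) * l ≤ p * l := Nat.mul_le_mul_right _ hap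
    calc a * l + j a < a * l + l := by omega
      _ = (a + 1) * l := by ring
      _ ≤ q * t := this.trans h
  have hinj : Set.InjOn (fun a => (a * l + j a) / q) (F : Set ℕ) := by
    intro a ha a' ha' haa
    have ha1 : a ∈ F := by exact_mod_cast ha
    have ha2 : a' ∈ F := by exact_mod_cast ha'
    obtain ⟨h1, h2⟩ := hj a ha1
    obtain ⟨h3, h4⟩ := hj a' ha2
    simp only at haa
    have e : a * l + j a = a' * l + j a' := by
      rw [← Nat.div_add_mod (a * l + j a) q, ← Nat.div_add_mod (a' * l + j a') q, haa, h2, h4]
    have e1 : (a * l + j a) / l = a := by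
      rw [mul_comm, Nat.mul_add_div hl, Nat.div_eq_of_lt h1, add_zero]
    have e2 : (a' * l + j a') / l = a' := by
      rw [mul_comm, Nat.mul_add_div hl, Nat.div_eq_of_lt h3, add_zero]
    rw [← e1, ← e2, e]
  have := Finset.card_le_card_of_injOn _ hmaps hinj
  rwa [Finset.card_range] at this

theorem clique_large (m t q l : ℕ) (hl : 0 < l) (ht : 0 < t) (h : (m + t) * l ≤ q * t)
    (K : Finset (Fin (m + t + q)))
    (hK : Maximal (fun T : Finset (Fin (m + t + q)) =>
      (gr (m + t) q l).IsClique (T : Set (Fin (m + t + q)))) K) : m + 1 ≤ K.card := by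
  classical
  obtain ⟨hC, hmax⟩ := hK
  by_cases hB : ∃ b ∈ K, m + t ≤ b.val
  · obtain ⟨b, hbK, hbp⟩ := hB
    have hin : ∀ a : Fin (m + t + q), a.val < m + t → ¬ NA q l a.val (b.val - (m + t)) →
        a ∈ K := by
      intro a ha hNA
      have hcl : (gr (m + t) q l).IsClique
          ((insert a K : Finset (Fin (m + t + q))) : Set _) := by
        have key : ∀ u ∈ K, u ≠ a → (gr (m + t) q l).Adj a u := by
          intro u hu hua
          rcases Nat.lt_or_ge u.val (m + t) with hup | hup
          · exact adj_AA ha hup hua.symm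
          · have hub : u = b := by
              by_contra hne
              exact not_adj_BB hup hbp
                (hC (by exact_mod_cast hu) (by exact_mod_cast hbK) hne)
            subst hub
            exact (adj_AB ha hup).2 hNA
        intro x hx y hy hxy
        simp only [Finset.coe_insert, Set.mem_insert_iff, Finset.mem_coe] at hx hy
        rcases hx with rfl | hx
        · rcases hy with rfl | hy
          · exact absurd rfl hxy
          · exact key y hy hxy.symm
        · rcases hy with rfl | hy
          · exact (key x hx hxy).symm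
          · exact hC (by exact_mod_cast hx) (by exact_mod_cast hy) hxy
      exact hmax hcl (Finset.subset_insert a K) (Finset.mem_insert_self a K)
    -- count
    have hcount : ((Finset.range (m + t)).filter
        (fun a => NA q l a (b.val - (m + t)))).card ≤ t := by
      apply NA_count (m + t) q l t (b.val - (m + t)) hl h
      intro a ha
      rw [Finset.mem_filter, Finset.mem_range] at ha
      exact ha
    have hcount2 : m ≤ ((Finset.range (m + t)).filter
        (fun a => ¬ NA q l a (b.val - (m + t)))).card := by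
      have := Finset.card_filter_add_card_filter_not (s := Finset.range (m + t))
        (fun a => NA q l a (b.val - (m + t)))
      rw [Finset.card_range] at this
      omega
    have hsub : insert b.val ((Finset.range (m + t)).filter
        (fun a => ¬ NA q l a (b.val - (m + t)))) ⊆ K.image Fin.val := by
      intro x hx
      rw [Finset.mem_insert, Finset.mem_filter, Finset.mem_range] at hx
      rw [Finset.mem_image]
      rcases hx with rfl | ⟨hx1, hx2⟩
      · exact ⟨b, hbK, rfl⟩
      · exact ⟨⟨x, by omega⟩, hin ⟨x, by omega⟩ hx1 hx2, rfl⟩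
    have hnot : b.val ∉ (Finset.range (m + t)).filter
        (fun a => ¬ NA q l a (b.val - (m + t))) := by
      rw [Finset.mem_filter, Finset.mem_range]
      omega
    have hcard := (Finset.card_le_card hsub).trans Finset.card_image_le
    rw [Finset.card_insert_of_notMem hnot] at hcard
    omega
  · push Not at hB
    have hin : ∀ a : Fin (m + t + q), a.val < m + t → a ∈ K := by
      intro a ha
      have hcl : (gr (m + t) q l).IsClique
          ((insert a K : Finset (Fin (m + t + q))) : Set _) := by
        intro x hx y hy hxy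
        simp only [Finset.coe_insert, Set.mem_insert_iff, Finset.mem_coe] at hx hy
        apply adj_AA _ _ hxy
        · rcases hx with rfl | hx
          · exact ha
          · exact hB x hx
        · rcases hy with rfl | hy
          · exact ha
          · exact hB y hy
      exact hmax hcl (Finset.subset_insert a K) (Finset.mem_insert_self a K)
    have hsub : Finset.range (m + t) ⊆ K.image Fin.val := by
      intro x hx
      rw [Finset.mem_range] at hx
      rw [Finset.mem_image]
      exact ⟨⟨x, by omega⟩, hin ⟨x, by omega⟩ hx, rfl⟩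
    have hcard := (Finset.card_le_card hsub).trans Finset.card_image_le
    rw [Finset.card_range] at hcard
    omega

theorem exists_indep {n : ℕ} (G : SimpleGraph (Fin n)) : ∃ S : Finset (Fin n),
    Maximal (fun T : Finset (Fin n) => G.IsIndepSet (T : Set (Fin n))) S := by
  obtain ⟨S, _, hS⟩ := Finite.exists_le_maximal
    (p := fun T : Finset (Fin n) => G.IsIndepSet (T : Set (Fin n))) (a := ∅)
    (by simp [SimpleGraph.IsIndepSet])
  exact ⟨S, hS⟩

theorem exists_clique {n : ℕ} (G : SimpleGraph (Fin n)) : ∃ S : Finset (Fin n),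
    Maximal (fun T : Finset (Fin n) => G.IsClique (T : Set (Fin n))) S := by
  obtain ⟨S, _, hS⟩ := Finite.exists_le_maximal
    (p := fun T : Finset (Fin n) => G.IsClique (T : Set (Fin n))) (a := ∅)
    (by simp [SimpleGraph.IsClique])
  exact ⟨S, hS⟩

theorem exists_graph (l m t q : ℕ) (hl : 0 < l) (ht : 0 < t) (hq : l + 1 ≤ q)
    (h : (m + t) * l ≤ q * t) :
    ∃ G : SimpleGraph (Fin (m + t + q)), l < indepDom G ∧ m < minMaxClique G := by
  refine ⟨gr (m + t) q l, ?_, ?_⟩
  · obtain ⟨S, hS⟩ := exists_indep (gr (m + t) q l)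
    obtain ⟨T, hT, hc⟩ := Nat.sInf_mem (s := {k : ℕ | ∃ S : Finset (Fin (m + t + q)),
      Maximal (fun T : Finset (Fin (m + t + q)) =>
        (gr (m + t) q l).IsIndepSet (T : Set (Fin (m + t + q)))) S ∧ S.card = k})
      ⟨S.card, S, hS, rfl⟩
    have := indep_large (m + t) q l hq T hT
    unfold indepDom
    omega
  · obtain ⟨S, hS⟩ := exists_clique (gr (m + t) q l)
    obtain ⟨T, hT, hc⟩ := Nat.sInf_mem (s := {k : ℕ | ∃ S : Finset (Fin (m + t + q)),
      Maximal (fun T : Finset (Fin (m + t + q)) =>
        (gr (m + t) q l).IsClique (T : Set (Fin (m + t + q)))) S ∧ S.card = k})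
      ⟨S.card, S, hS, rfl⟩
    have := clique_large m t q l hl ht h T hT
    unfold minMaxClique
    omega

/-- For all orders `n ≥ l + m + t + ⌈lm/t⌉` there is a graph with `i > l` and `μ > m`. -/
theorem exists_graph' (l m t n : ℕ) (hl : 0 < l) (hm : 0 < m) (ht : 0 < t)
    (hn : l + m + t + (m * l + t - 1) / t ≤ n) :
    ∃ G : SimpleGraph (Fin n), l < indepDom G ∧ m < minMaxClique G := by
  have hml : 0 < m * l := Nat.mul_pos hm hl
  have h1 : m * l ≤ ((m * l + t - 1) / t) * t := by
    have h2 := Nat.div_add_mod (m * l + t - 1) t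
    have h3 := Nat.mod_lt (m * l + t - 1) ht
    rw [mul_comm t] at h2
    omega
  have h4 : 1 ≤ (m * l + t - 1) / t := by
    rw [Nat.le_div_iff_mul_le ht]
    omega
  generalize (m * l + t - 1) / t = D at hn h1 h4
  obtain ⟨q, rfl⟩ : ∃ q, n = m + t + q := ⟨n - (m + t), by omega⟩
  apply exists_graph l m t q hl ht (by omega)
  have h5 : l + D ≤ q := by omega
  calc (m + t) * l = l * t + m * l := by ring
    _ ≤ l * t + D * t := by omega
    _ = (l + D) * t := by ring
    _ ≤ q * t := Nat.mul_le_mul_right _ h5

theorem upper (l m t s : ℕ) (hl : 0 < l) (hm : 0 < m) (ht : 0 < t)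
    (hs : IsLowerRamsey l m s) : s < l + m + t + (m * l + t - 1) / t := by
  by_contra hcon
  push Not at hcon
  obtain ⟨G, h1, h2⟩ := exists_graph' l m t s hl hm ht hcon
  rcases hs.1 G with h | h <;> omega

/-- The upper bound for the lower Ramsey numbers and the disproof of
`s(l,m) = 2(l+m)-1` in the range `⌊m/2⌋ ≤ l ≤ m`. -/
theorem result :
    -- the general bound `s(l,m) ≤ l + m + t + ⌈lm/t⌉ - 1` for every `t ≥ 1`
    (∀ l m t s : ℕ, 0 < l → 0 < m → 0 < t → IsLowerRamsey l m s →
      s < l + m + t + (m * l + t - 1) / t) ∧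
    -- the conjectured value is wrong for `(l,m) = (4,9)` and `(6,12)`
    ¬ IsLowerRamsey 4 9 (2 * (4 + 9) - 1) ∧
    ¬ IsLowerRamsey 6 12 (2 * (6 + 12) - 1) ∧
    -- and whenever `l + m` is even and `(m - l)^2 ≥ 2 (m + l)`
    (∀ l m : ℕ, 0 < l → l ≤ m → Even (l + m) → 2 * (m + l) ≤ (m - l) ^ 2 →
      ¬ IsLowerRamsey l m (2 * (l + m) - 1)) ∧
    -- hence the statement of Q1 is false
    ¬ (∀ l m : ℕ, 0 < l → 0 < m → m / 2 ≤ l → l ≤ m → IsLowerRamsey l m (2 * (l + m) - 1)) := by
  have h49 : ¬ IsLowerRamsey 4 9 (2 * (4 + 9) - 1) := by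
    intro h
    have := upper 4 9 6 _ (by norm_num) (by norm_num) (by norm_num) h
    norm_num at this
  refine ⟨upper, h49, ?_, ?_, ?_⟩
  · intro h
    have := upper 6 12 8 _ (by norm_num) (by norm_num) (by norm_num) h
    norm_num at this
  · intro l m hl hlm hev hsq h
    obtain ⟨t, ht⟩ := hev
    obtain ⟨d, rfl⟩ : ∃ d, m = l + 2 * d := ⟨t - l, by omega⟩
    have htd : t = l + d := by omega
    subst htd
    have hd : l + d ≤ d ^ 2 := by
      have e : l + 2 * d - l = 2 * d := by omega
      rw [e] at hsq
      nlinarith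
    have hb := upper l (l + 2 * d) (l + d) _ hl (by omega) (by omega) h
    have hdiv : ((l + 2 * d) * l + (l + d) - 1) / (l + d) ≤ l + d - 1 := by
      have : (l + 2 * d) * l + (l + d) - 1 < (l + d) * (l + d) := by
        have : (l + 2 * d) * l + d ^ 2 = (l + d) * (l + d) := by ring
        omega
      have := Nat.div_lt_of_lt_mul this
      omega
    omega
  · intro h
    exact h49 (h 4 9 (by norm_num) (by norm_num) (by norm_num) (by norm_num))

end Pool.Agent.Results.MP_a5fab4_co.SplitGraph
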